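import Pool.Agent.Lib.MP_5ea425_an.Null

/-!
A Borel set that is null on every `n`-dimensional affine subspace transversal to a closed subspace
of codimension `n` is Aronszajn null.
-/

set_option autoImplicit false

open MeasureTheory

namespace Pool.Agent.Lib.MP_5ea425_an.All

variable {X : Type*} [NormedAddCommGroup X] [NormedSpace ℝ X] [MeasurableSpace X] [BorelSpace X]

theorem decomp (n : ℕ) : ∀ (z : Fin n → X) (A : Set X), MeasurableSet A →
    (∀ y, volume {t : Fin n → ℝ | y + ∑ r, t r • z r ∈ A} = 0) →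
    ∃ B : Fin n → Set X, (∀ r, MeasurableSet (B r)) ∧ A = ⋃ r, B r ∧
      ∀ r y, volume {t : ℝ | y + t • z r ∈ B r} = 0 := by
  induction n with
  | zero =>
    intro z A _ h
    refine ⟨Fin.elim0, fun r => r.elim0, ?_, fun r => r.elim0⟩
    rw [Set.iUnion_of_empty, Set.eq_empty_iff_forall_notMem]
    intro y hy
    have h1 := h y
    rw [show {t : Fin 0 → ℝ | y + ∑ r, t r • z r ∈ A} = Set.univ by ext t; simp [hy], volume_pi,
      Measure.pi_univ] at h1
    simp at h1
  | succ n ih =>
    intro z A hA h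
    have hm : MeasurableSet {x : X | volume {s : ℝ | x + s • z 0 ∈ A} = 0} :=
      measurable_measure_prodMk_left (ν := (volume : Measure ℝ))
        (s := (fun p : X × ℝ => p.1 + p.2 • z 0) ⁻¹' A)
        (Continuous.measurable (by fun_prop) hA) (measurableSet_singleton 0)
    obtain ⟨B, h1, h2, h3⟩ := ih (fun r => z r.succ) (A \ {x | volume {s : ℝ | x + s • z 0 ∈ A} = 0})
      (hA.diff hm) fun y => by
        have a1 := ((volume_preserving_piFinSuccAbove (fun _ : Fin (n + 1) => ℝ) 0).symm _).comp
          (Measure.measurePreserving_swap (μ := (volume : Measure (Fin n → ℝ)))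
            (ν := (volume : Measure ℝ)))
        have a2 := Measure.measure_ae_null_of_prod_null
          (a1.quasiMeasurePreserving.preimage_null (h y))
        refine measure_mono_null (fun t ht => ?_) (ae_iff.1 a2)
        refine fun h0 => ht.2 (Eq.trans ?_ h0)
        congr 1
        ext s
        simp [Fin.sum_univ_succ, add_assoc, add_comm (s • z 0), Fin.insertNthEquiv]
    refine ⟨Fin.cons (A ∩ {x | volume {s : ℝ | x + s • z 0 ∈ A} = 0}) B, fun r => ?_, ?_,
      fun r y => ?_⟩
    · exact Fin.cases (hA.inter hm) h1 r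
    · rw [Set.iUnion_fin_add_one_eq_iUnion_succ]
      simp only [Fin.cons_zero, Function.comp_def, Fin.cons_succ]
      rw [← h2, Set.inter_union_diff]
    · refine Fin.cases ?_ (fun r => h3 r y) r
      simp only [Fin.cons_zero]
      rcases Set.eq_empty_or_nonempty {t : ℝ | y + t • z 0 ∈
        A ∩ {x | volume {s : ℝ | x + s • z 0 ∈ A} = 0}} with h0 | ⟨s₀, h0⟩
      · rw [h0, measure_empty]
      · refine measure_mono_null (t := (· + -s₀) ⁻¹' {s : ℝ | y + s₀ • z 0 + s • z 0 ∈ A})
          (fun t ht => ?_) ((measure_preimage_add_right _ _ _).trans h0.2)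
        change y + s₀ • z 0 + (t + -s₀) • z 0 ∈ A
        rw [add_assoc, ← add_smul, show s₀ + (t + -s₀) = t by ring]
        exact ht.1

theorem null_of_planes {n : ℕ} (π : X →L[ℝ] (Fin n → ℝ)) (hπ : Function.Surjective π) {A : Set X}
    (hA : MeasurableSet A) (h : ∀ (y : X) (z : Fin n → X), ∀ᵐ c : Fin n → ℝ, ∀ t : Fin n → ℝ,
      π (y + ∑ r, t r • z r) = c → y + ∑ r, t r • z r ∉ A) : AronszajnNull A := by
  refine ⟨hA, fun x hx => ?_⟩
  have h1 : Submodule.span ℝ (Set.range (π ∘ x)) = ⊤ := by
    have a1 := hπ.denseRange.dense_image π.continuous hx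
    have a2 : π '' (Submodule.span ℝ (Set.range x) : Set X) ⊆
        (Submodule.span ℝ (Set.range (π ∘ x)) : Set (Fin n → ℝ)) := by
      rw [Set.range_comp]
      exact Submodule.image_span_subset_span (π : X →ₗ[ℝ] (Fin n → ℝ)) _
    have a3 := (a1.mono a2).closure_eq
    rw [(Submodule.closed_of_finiteDimensional _).closure_eq] at a3
    exact Submodule.eq_top_iff'.2 fun v => by
      rw [← SetLike.mem_coe, a3]
      trivial
  obtain ⟨i, h2⟩ : ∃ i : Fin n → ℕ, Submodule.span ℝ (Set.range fun r => π (x (i r))) = ⊤ := by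
    have a1 := Submodule.exists_fun_fin_finrank_span_eq ℝ (Set.range (π ∘ x))
    rw [h1, finrank_top, Module.finrank_fin_fun] at a1
    obtain ⟨f, a1, a2, -⟩ := a1
    choose i hi using a1
    exact ⟨i, by rw [← a2, ← funext hi]; rfl⟩
  let M : (Fin n → ℝ) →ₗ[ℝ] (Fin n → ℝ) := Fintype.linearCombination ℝ fun r => π (x (i r))
  have h3 : LinearMap.det M ≠ 0 := by
    have a1 : Function.Surjective M := by
      rw [← LinearMap.range_eq_top, Fintype.range_linearCombination, h2]
    exact (LinearMap.isUnit_det _ ((LinearMap.isUnit_iff_range_eq_top M).2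
      (LinearMap.range_eq_top.2 a1))).ne_zero
  obtain ⟨B, h4, h5, h6⟩ := decomp n (fun r => x (i r)) A hA fun y => by
    have a1 := ((measurePreserving_add_left volume (π y)).quasiMeasurePreserving.comp
      (Measure.LinearMap.quasiMeasurePreserving volume M h3)).ae (h y fun r => x (i r))
    refine measure_mono_null ?_ (ae_iff.1 a1)
    refine fun t ht h0 => h0 t ?_ ht
    simp [M, Fintype.linearCombination_apply]
  refine ⟨fun m => ⋃ r, ⋃ (_ : i r = m), B r,
    fun m => MeasurableSet.iUnion fun r => MeasurableSet.iUnion fun _ => h4 r, ?_, fun m y => ?_⟩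
  · rw [h5]
    ext v
    simp only [Set.mem_iUnion]
    exact ⟨fun ⟨r, hr⟩ => ⟨i r, r, rfl, hr⟩, fun ⟨_, r, _, hr⟩ => ⟨r, hr⟩⟩
  · simp only [Set.mem_iUnion, Set.setOf_exists]
    refine measure_iUnion_null fun r => measure_iUnion_null fun hr => ?_
    rw [← hr]
    exact h6 r y

end Pool.Agent.Lib.MP_5ea425_an.All
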