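import Mathlib

/-!
The Dvoretzky-Rogers lemma in the dual space: long families of functionals with an upper
`2`-estimate, each norming a vector of bounded norm.
-/

set_option autoImplicit false

open Module

namespace Pool.Agent.Lib.MP_5ea425_an.All

theorem det_add_proj {E : Type*} [NormedAddCommGroup E] [InnerProductSpace ℝ E]
    [FiniteDimensional ℝ E] (S : Submodule ℝ E) :
    (ContinuousLinearMap.id ℝ E + S.starProjection).det = 2 ^ finrank ℝ S := by
  have h := LinearMap.det_conj (LinearMap.prodMap ((2 : ℝ) • (LinearMap.id : S →ₗ[ℝ] S))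
    (LinearMap.id : Sᗮ →ₗ[ℝ] Sᗮ))
    (S.prodEquivOfIsCompl Sᗮ Submodule.isCompl_orthogonal_of_hasOrthogonalProjection)
  rw [LinearMap.det_prodMap, LinearMap.det_smul, LinearMap.det_id, LinearMap.det_id, mul_one,
    mul_one] at h
  rw [← h, ContinuousLinearMap.det]
  congr 1
  refine LinearMap.ext fun x => ?_
  obtain ⟨⟨a, b⟩, rfl⟩ := (S.prodEquivOfIsCompl Sᗮ
    Submodule.isCompl_orthogonal_of_hasOrthogonalProjection).surjective x
  have h1 : S.starProjection (b : E) = 0 := (Submodule.starProjection_apply_eq_zero_iff S).2 b.2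
  have h2 : S.starProjection (a : E) = a := Submodule.starProjection_eq_self_iff.2 a.2
  rw [LinearMap.comp_apply, LinearMap.comp_apply, LinearEquiv.coe_coe, LinearEquiv.coe_coe,
    LinearEquiv.symm_apply_apply, LinearMap.prodMap_apply, Submodule.coe_prodEquivOfIsCompl',
    Submodule.coe_prodEquivOfIsCompl']
  change (a : E) + b + S.starProjection ((a : E) + b) = (2 : ℝ) • (a : E) + b
  rw [map_add, h1, h2, two_smul]
  abel

theorem exists_max {E Y : Type*} [NormedAddCommGroup E] [InnerProductSpace ℝ E]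
    [FiniteDimensional ℝ E] [NormedAddCommGroup Y] [NormedSpace ℝ Y] (T₀ : E →L[ℝ] Y)
    (h₀ : Function.Injective T₀) :
    ∃ T : E →L[ℝ] Y, ‖T‖ ≤ 1 ∧ ∀ S : Submodule ℝ E, 0 < finrank ℝ S →
      finrank ℝ E ≤ 2 * finrank ℝ S → ∃ x ∈ S, ‖x‖ = 1 ∧ 2 / 5 < ‖T x‖ := by
  obtain ⟨K, -, hK⟩ := LinearMap.exists_antilipschitzWith (T₀ : E →ₗ[ℝ] Y)
    (LinearMap.ker_eq_bot.2 h₀)
  have hc : IsCompact {A : E →L[ℝ] E | ‖T₀.comp A‖ ≤ 1} := by
    refine Metric.isCompact_of_isClosed_isBounded (isClosed_le (by fun_prop) continuous_const)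
      (isBounded_iff_forall_norm_le.2 ⟨K, fun A hA => A.opNorm_le_bound K.coe_nonneg fun x => ?_⟩)
    have h1 := hK.le_mul_dist (A x) 0
    rw [dist_zero_right, map_zero, dist_zero_right] at h1
    refine h1.trans (mul_le_mul_of_nonneg_left ?_ K.coe_nonneg)
    exact ((T₀.comp A).le_of_opNorm_le hA x).trans_eq (one_mul _)
  have hp : (0 : ℝ) < (‖T₀‖ + 1)⁻¹ := by positivity
  have h1 : (‖T₀‖ + 1)⁻¹ • ContinuousLinearMap.id ℝ E ∈ {A : E →L[ℝ] E | ‖T₀.comp A‖ ≤ 1} := by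
    change ‖T₀.comp _‖ ≤ 1
    rw [ContinuousLinearMap.comp_smul, ContinuousLinearMap.comp_id, norm_smul,
      Real.norm_of_nonneg hp.le, inv_mul_le_iff₀ (by positivity)]
    linarith
  obtain ⟨A, hA, hm⟩ := hc.exists_isMaxOn ⟨_, h1⟩
    (f := fun A => |A.det|) ContinuousLinearMap.continuous_det.abs.continuousOn
  have hs : ∀ (c : ℝ) (B : E →L[ℝ] E), (c • B).det = c ^ finrank ℝ E * B.det := fun c B =>
    LinearMap.det_smul c (B : E →ₗ[ℝ] E)
  have hpos : 0 < |A.det| := by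
    refine lt_of_lt_of_le ?_ (hm h1)
    change 0 < |((‖T₀‖ + 1)⁻¹ • ContinuousLinearMap.id ℝ E).det|
    rw [hs, show (ContinuousLinearMap.id ℝ E).det = 1 from LinearMap.det_id, mul_one]
    exact abs_pos.2 (pow_pos hp _).ne'
  refine ⟨T₀.comp A, hA, fun S h2 h3 => ?_⟩
  by_contra hn
  push Not at hn
  have h4 : ∀ x ∈ S, ‖(T₀.comp A) x‖ ≤ 2 / 5 * ‖x‖ := fun x hx => by
    rcases eq_or_ne x 0 with rfl | hx0
    · simp
    · have h5 := hn _ (S.smul_mem ‖x‖⁻¹ hx) (norm_smul_inv_norm hx0)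
      rw [map_smul, norm_smul, norm_inv, norm_norm, inv_mul_le_iff₀ (norm_pos_iff.2 hx0)] at h5
      linarith
  have h5 : (5 / 7 : ℝ) • A.comp (ContinuousLinearMap.id ℝ E + S.starProjection) ∈
      {A : E →L[ℝ] E | ‖T₀.comp A‖ ≤ 1} := by
    refine ContinuousLinearMap.opNorm_le_bound _ zero_le_one fun x => ?_
    have a1 := (T₀.comp A).le_of_opNorm_le hA x
    have a2 := h4 _ (S.starProjection_apply_mem x)
    have a3 := S.norm_starProjection_apply_le x
    have a4 := norm_add_le ((T₀.comp A) x) ((T₀.comp A) (S.starProjection x))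
    rw [show (T₀.comp ((5 / 7 : ℝ) • A.comp (ContinuousLinearMap.id ℝ E + S.starProjection))) x =
      (5 / 7 : ℝ) • ((T₀.comp A) x + (T₀.comp A) (S.starProjection x)) by simp, norm_smul,
      Real.norm_of_nonneg (by norm_num)]
    linarith
  have h6 : |((5 / 7 : ℝ) • A.comp (ContinuousLinearMap.id ℝ E + S.starProjection)).det| ≤
    |A.det| := hm h5
  rw [hs, show (A.comp (ContinuousLinearMap.id ℝ E + S.starProjection)).det =
    A.det * (ContinuousLinearMap.id ℝ E + S.starProjection).det from LinearMap.det_comp _ _,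
    det_add_proj, abs_mul, abs_mul, abs_of_pos (by positivity : (0 : ℝ) < (5 / 7) ^ finrank ℝ E),
    abs_of_pos (by positivity : (0 : ℝ) < 2 ^ finrank ℝ S), mul_left_comm,
    mul_le_iff_le_one_right hpos] at h6
  have h7 : ((5 / 7 : ℝ)) ^ (2 * finrank ℝ S) ≤ (5 / 7) ^ finrank ℝ E :=
    pow_le_pow_of_le_one (by norm_num) (by norm_num) h3
  have h8 : (1 : ℝ) < ((5 / 7) ^ 2 * 2) ^ finrank ℝ S := one_lt_pow₀ (by norm_num) h2.ne'
  rw [mul_pow, ← pow_mul] at h8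
  have h9 := mul_le_mul_of_nonneg_right h7 (by positivity : (0 : ℝ) ≤ 2 ^ finrank ℝ S)
  linarith

theorem exists_family {Y : Type*} [NormedAddCommGroup Y] [NormedSpace ℝ Y]
    (hY : ¬ FiniteDimensional ℝ Y) (N : ℕ) :
    ∃ y : Fin N → Y, (∀ j, 2 / 5 < ‖y j‖) ∧ ∀ a : Fin N → ℝ, ‖∑ j, a j • y j‖ ^ 2 ≤ ∑ j, a j ^ 2 := by
  rw [FiniteDimensional, ← rank_lt_aleph0_iff, not_lt] at hY
  obtain ⟨f, hf⟩ := le_rank_iff_exists_linearMap.1
    ((Cardinal.natCast_le_aleph0 (n := 2 * N)).trans hY)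
  obtain ⟨T, hT, h⟩ := exists_max (E := EuclideanSpace ℝ (Fin (2 * N)))
    (LinearMap.toContinuousLinearMap (f ∘ₗ (WithLp.linearEquiv 2 ℝ _).toLinearMap))
    (hf.comp (WithLp.linearEquiv 2 ℝ (Fin (2 * N) → ℝ)).injective)
  have key : ∀ i ≤ N, ∃ x : Fin i → EuclideanSpace ℝ (Fin (2 * N)), Orthonormal ℝ x ∧
      ∀ j, 2 / 5 < ‖T (x j)‖ := by
    intro i
    induction i with
    | zero => exact fun _ => ⟨Fin.elim0, ⟨fun j => j.elim0, fun j => j.elim0⟩, fun j => j.elim0⟩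
    | succ i ih =>
      intro hi
      obtain ⟨x, h1, h2⟩ := ih (by omega)
      have h3 := (Submodule.span ℝ (Set.range x)).finrank_add_finrank_orthogonal
      rw [finrank_span_eq_card h1.linearIndependent, Fintype.card_fin,
        finrank_euclideanSpace_fin] at h3
      obtain ⟨y, h4, h5, h6⟩ := h (Submodule.span ℝ (Set.range x))ᗮ (by omega)
        (by rw [finrank_euclideanSpace_fin]; omega)
      refine ⟨Matrix.vecCons y x, orthonormal_vecCons_iff.2 ⟨h5, fun j => ?_, h1⟩, fun j => ?_⟩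
      · exact Submodule.inner_left_of_mem_orthogonal 
          (Submodule.subset_span (Set.mem_range_self j)) h4
      · exact Fin.cases h6 h2 j
  obtain ⟨x, h1, h2⟩ := key N le_rfl
  refine ⟨fun j => T (x j), h2, fun a => ?_⟩
  have h3 := h1.inner_sum a a Finset.univ
  rw [real_inner_self_eq_norm_sq] at h3
  have h4 := T.le_of_opNorm_le hT (∑ j, a j • x j)
  rw [map_sum, one_mul] at h4
  simp only [map_smul] at h4
  refine (pow_le_pow_left₀ (norm_nonneg _) h4 2).trans (h3.trans_le (le_of_eq ?_))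
  simp [sq]

theorem exists_block {X : Type*} [NormedAddCommGroup X] [NormedSpace ℝ X]
    (hX : ¬ FiniteDimensional ℝ X) (Z : Finset X) {ι : Type*} (J : Finset ι) :
    ∃ (e : ι → X) (φ : ι → X →L[ℝ] ℝ), (∀ j ∈ J, ‖e j‖ ≤ 3) ∧ (∀ j ∈ J, φ j (e j) = 1) ∧
      (∀ j ∈ J, ∀ z ∈ Z, φ j z = 0) ∧ ∀ f, ∑ j ∈ J, φ j f ^ 2 ≤ ‖f‖ ^ 2 := by
  classical
  let Λ : (X →L[ℝ] ℝ) →ₗ[ℝ] (Z → ℝ) :=
    LinearMap.pi fun z => (ContinuousLinearMap.apply ℝ ℝ (z : X)).toLinearMap
  have hY : ¬ FiniteDimensional ℝ (LinearMap.ker Λ) := fun h => by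
    have := Module.Finite.equiv Λ.quotKerEquivRange.symm
    have := Module.Finite.of_submodule_quotient (LinearMap.ker Λ)
    exact hX (FiniteDimensional.of_injective (NormedSpace.inclusionInDoubleDualLi ℝ (E := X)).toLinearMap
      (NormedSpace.inclusionInDoubleDualLi ℝ (E := X)).injective)
  obtain ⟨y, h1, h2⟩ := exists_family (Y := LinearMap.ker Λ) hY J.card
  choose x h3 h4 using fun j => (y j : X →L[ℝ] ℝ).exists_lt_apply_of_lt_opNorm (h1 j)
  have h5 : ∀ j, (y j : X →L[ℝ] ℝ) (x j) ≠ 0 := fun j h => by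
    have := h4 j
    rw [h, norm_zero] at this
    linarith
  let s := J.equivFin
  refine ⟨fun j => if h : j ∈ J then ((y (s ⟨j, h⟩) : X →L[ℝ] ℝ) (x (s ⟨j, h⟩)))⁻¹ • x (s ⟨j, h⟩)
    else 0, fun j => if h : j ∈ J then y (s ⟨j, h⟩) else 0, fun j hj => ?_, fun j hj => ?_,
    fun j hj z hz => ?_, fun f => ?_⟩
  · simp only [dif_pos hj]
    have a1 := h3 (s ⟨j, hj⟩)
    have a2 := h4 (s ⟨j, hj⟩)
    rw [norm_smul, norm_inv, inv_mul_le_iff₀ (norm_pos_iff.2 (h5 _))]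
    linarith
  · simp only [dif_pos hj]
    rw [map_smul, smul_eq_mul, inv_mul_cancel₀ (h5 _)]
  · simp only [dif_pos hj]
    exact congrFun (y (s ⟨j, hj⟩)).2 ⟨z, hz⟩
  · have e1 : ∑ j ∈ J, ((if h : j ∈ J then (y (s ⟨j, h⟩) : X →L[ℝ] ℝ) else 0) f) ^ 2 =
        ∑ j, (y j : X →L[ℝ] ℝ) f ^ 2 := by
      rw [← Finset.sum_coe_sort, ← s.sum_comp]
      exact Finset.sum_congr rfl fun j _ => by rw [dif_pos j.2]
    rw [e1]
    set a : Fin J.card → ℝ := fun j => (y j : X →L[ℝ] ℝ) f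
    have a1 := h2 a
    have a2 : ((∑ j, a j • y j : LinearMap.ker Λ) : X →L[ℝ] ℝ) f = ∑ j, a j ^ 2 := by
      simp [a, sq]
    have a3 := ((∑ j, a j • y j : LinearMap.ker Λ) : X →L[ℝ] ℝ).le_opNorm f
    rw [a2, ← Submodule.coe_norm, Real.norm_of_nonneg (by positivity)] at a3
    change ∑ j, a j ^ 2 ≤ _
    set S := ∑ j, a j ^ 2
    set r := ‖∑ j, a j • y j‖
    nlinarith [sq_nonneg (r - ‖f‖)]

end Pool.Agent.Lib.MP_5ea425_an.All
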