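import Mathlib

/-!
One level of the construction: disjoint bumps on a grid, and two almost everywhere statements.
-/

set_option autoImplicit false

open MeasureTheory Filter Topology

namespace Pool.Agent.Lib.MP_5ea425_an.All

/-- An integer point as a real point. -/
def cst {n : ℕ} (j : Fin n → ℤ) : Fin n → ℝ := fun r => j r

theorem int_sep {n : ℕ} {y : Fin n → ℝ} {j l : Fin n → ℤ} (h1 : ‖y - cst j‖ < 1 / 2)
    (h2 : ‖y - cst l‖ < 1 / 2) : j = l := by
  funext r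
  have a1 := abs_lt.1 ((norm_le_pi_norm (y - cst j) r).trans_lt h1)
  have a2 := abs_lt.1 ((norm_le_pi_norm (y - cst l) r).trans_lt h2)
  simp only [Pi.sub_apply, cst] at a1 a2
  have a3 : (j r : ℝ) < l r + 1 := by linarith [a1.1, a2.2]
  have a4 : (l r : ℝ) < j r + 1 := by linarith [a1.2, a2.1]
  have a5 : j r < l r + 1 := by exact_mod_cast a3
  have a6 : l r < j r + 1 := by exact_mod_cast a4
  omega

theorem bump_bound {n : ℕ} (β : ContDiffBump (0 : Fin n → ℝ)) (k : ℕ) :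
    ∃ M : ℝ, 0 < M ∧ ∀ i ≤ k, ∀ c, ‖iteratedFDeriv ℝ i β c‖ ≤ M := by
  have h : ∀ i : ℕ, ∃ M : ℝ, ∀ c, ‖iteratedFDeriv ℝ i β c‖ ≤ M := fun i =>
    (β.hasCompactSupport.iteratedFDeriv (𝕜 := ℝ) i).exists_bound_of_continuous
      ((β.contDiff (n := i)).continuous_iteratedFDeriv (m := i) le_rfl)
  choose M hM using h
  have h0 : ∀ i, 0 ≤ M i := fun i => (norm_nonneg _).trans (hM i 0)
  refine ⟨∑ i ∈ Finset.range (k + 1), M i + 1, ?_, fun i hi c => (hM i c).trans ?_⟩
  · have := Finset.sum_nonneg fun i (_ : i ∈ Finset.range (k + 1)) => h0 i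
    linarith
  · have := Finset.single_le_sum (fun i (_ : i ∈ Finset.range (k + 1)) => h0 i)
      (Finset.mem_range.2 (Nat.lt_succ_of_le hi))
    linarith

theorem level_bound {X : Type*} [NormedAddCommGroup X] [NormedSpace ℝ X] {n k : ℕ}
    (β : ContDiffBump (0 : Fin n → ℝ)) (hβ : β.rOut < 1 / 2) {M L b : ℝ} (hM0 : 0 < M)
    (hM : ∀ i ≤ k, ∀ c, ‖iteratedFDeriv ℝ i β c‖ ≤ M) (hL : 1 ≤ L) (hb : 0 ≤ b)
    (J : Finset (Fin n → ℤ)) (v : (Fin n → ℤ) → X) (hv : ∀ j ∈ J, ‖v j‖ ≤ b) :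
    ContDiff ℝ k (fun c => ∑ j ∈ J, β (L • c - cst j) • v j) ∧ ∀ i ≤ k, ∀ c,
      ‖iteratedFDeriv ℝ i (fun c => ∑ j ∈ J, β (L • c - cst j) • v j) c‖ ≤ b * M * L ^ k := by
  have h1 : ∀ (i : ℕ) j, ContDiff ℝ i fun c : Fin n → ℝ => β (c - cst j) := fun i j =>
    (β.contDiff (n := i)).comp (contDiff_id.sub contDiff_const)
  have h2 : ∀ (i : ℕ) j, ContDiff ℝ i fun c : Fin n → ℝ => β (L • c - cst j) := fun i j =>
    (h1 i j).comp (contDiff_id.const_smul L)
  refine ⟨ContDiff.sum fun j _ => (h2 k j).smul contDiff_const, fun i hi c => ?_⟩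
  have h3 : ∀ j, ‖iteratedFDeriv ℝ i (fun c => β (L • c - cst j) • v j) c‖ ≤
      ‖v j‖ * (L ^ i * ‖iteratedFDeriv ℝ i β (L • c - cst j)‖) := fun j => by
    have a1 := ((ContinuousLinearMap.id ℝ ℝ).smulRight (v j)).norm_iteratedFDeriv_comp_left
      (x := c) (h2 i j).contDiffAt le_rfl
    have a2 := congrFun (iteratedFDeriv_comp_const_smul L (h1 i j)) c
    rw [a2, iteratedFDeriv_comp_sub, norm_smul, Real.norm_of_nonneg (by positivity),
      ContinuousLinearMap.norm_smulRight_apply, ContinuousLinearMap.norm_id, one_mul] at a1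
    exact a1
  have h4 : ∀ j, ¬ ‖L • c - cst j‖ < 1 / 2 →
      iteratedFDeriv ℝ i (fun c => β (L • c - cst j) • v j) c = 0 := fun j hj => by
    have a1 : iteratedFDeriv ℝ i β (L • c - cst j) = 0 := by
      by_contra h
      have a2 := support_iteratedFDeriv_subset (𝕜 := ℝ) (f := β) i h
      rw [β.tsupport_eq, mem_closedBall_zero_iff] at a2
      exact hj (a2.trans_lt hβ)
    have a2 := h3 j
    rwa [a1, norm_zero, mul_zero, mul_zero, norm_le_zero_iff] at a2
  rw [iteratedFDeriv_fun_sum_apply (f := fun j c => β (L • c - cst j) • v j)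
    fun j _ => ((h2 i j).smul contDiff_const).contDiffAt]
  by_cases h : ∃ j ∈ J, ‖L • c - cst j‖ < 1 / 2
  · obtain ⟨j, h5, h6⟩ := h
    rw [Finset.sum_eq_single_of_mem j h5 fun l _ hl => h4 l fun h => hl (int_sep h h6)]
    refine (h3 j).trans ?_
    rw [mul_assoc, mul_comm M]
    exact mul_le_mul (hv j h5) (mul_le_mul (pow_le_pow_right₀ hL hi) (hM i hi _) (norm_nonneg _)
      (by positivity)) (by positivity) hb
  · rw [Finset.sum_eq_zero fun j hj => h4 j fun h' => h ⟨j, hj, h'⟩, norm_zero]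
    positivity

theorem level_eval {X : Type*} [NormedAddCommGroup X] [NormedSpace ℝ X] {n : ℕ}
    (β : ContDiffBump (0 : Fin n → ℝ)) (hβ : β.rOut < 1 / 2) {J : Finset (Fin n → ℤ)}
    (v : (Fin n → ℤ) → X) {y : Fin n → ℝ} {j : Fin n → ℤ} (hj : j ∈ J) (h : ‖y - cst j‖ ≤ β.rIn) :
    ∑ l ∈ J, β (y - cst l) • v l = v j := by
  rw [Finset.sum_eq_single_of_mem j hj fun l _ hl => ?_,
    β.one_of_mem_closedBall (mem_closedBall_zero_iff.2 h), one_smul]
  rw [β.zero_of_le_dist, zero_smul]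
  rw [dist_zero_right]
  by_contra h'
  exact hl (int_sep ((not_le.1 h').trans hβ) (h.trans_lt (β.rIn_lt_rOut.trans hβ)))

theorem ae_tendsto {α : Type*} [MeasurableSpace α] {μ : Measure α} {F : ℕ → α → ℝ}
    (hi : ∀ m, Integrable (F m) μ) (h0 : ∀ m t, 0 ≤ F m t)
    (hb : Summable fun m => ∫ t, F m t ∂μ) : ∀ᵐ t ∂μ, Tendsto (fun m => F m t) atTop (𝓝 0) := by
  have h1 : ∫⁻ t, ∑' m, ENNReal.ofReal (F m t) ∂μ ≠ ⊤ := by
    rw [lintegral_tsum fun m => (hi m).aemeasurable.ennreal_ofReal]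
    simp_rw [fun m => (ofReal_integral_eq_lintegral_ofReal (hi m)
      (Eventually.of_forall (h0 m))).symm]
    rw [← ENNReal.ofReal_tsum_of_nonneg (fun m => integral_nonneg (h0 m)) hb]
    exact ENNReal.ofReal_ne_top
  filter_upwards [ae_lt_top' (AEMeasurable.tsum
    fun m => (hi m).aemeasurable.ennreal_ofReal) h1] with t ht
  have h2 := (ENNReal.tendsto_toReal ENNReal.zero_ne_top).comp
    (ENNReal.tendsto_atTop_zero_of_tsum_ne_top ht.ne)
  refine h2.congr fun m => ?_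
  exact ENNReal.toReal_ofReal (h0 m t)

theorem ae_small {n : ℕ} (J : ℕ → Finset (Fin n → ℤ)) (L : ℕ → ℝ) (hL : ∀ m, 0 < L m)
    (g : ℕ → (Fin n → ℤ) → ℝ) {C : ℝ}
    (h : ∀ m, (∑ j ∈ J m, g m j ^ 2) / L m ^ n ≤ C * (1 / 2) ^ m) :
    ∀ᵐ c : Fin n → ℝ, ∀ τ : ℝ, 0 < τ → ∀ᶠ m in atTop, ∀ j ∈ J m, ‖L m • c - cst j‖ ≤ 1 / 2 →
      |g m j| ≤ τ := by
  have hv : ∀ m j, volume (Metric.closedBall ((L m)⁻¹ • cst j : Fin n → ℝ) (1 / (2 * L m))) =
      ENNReal.ofReal (1 / L m ^ n) := fun m j => by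
    have := hL m
    rw [Real.volume_pi_closedBall _ (by positivity), Fintype.card_fin, ← one_div_pow]
    congr 2
    field_simp
  have hi : ∀ m j, Integrable ((Metric.closedBall ((L m)⁻¹ • cst j : Fin n → ℝ)
      (1 / (2 * L m))).indicator fun _ => g m j ^ 2) := fun m j =>
    (integrable_indicator_iff measurableSet_closedBall).2
      (integrableOn_const (by rw [hv]; exact ENNReal.ofReal_ne_top))
  have h0 : ∀ m j c, 0 ≤ (Metric.closedBall ((L m)⁻¹ • cst j : Fin n → ℝ)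
      (1 / (2 * L m))).indicator (fun _ => g m j ^ 2) c := fun m j c =>
    Set.indicator_nonneg (fun _ _ => sq_nonneg _) _
  have h1 := ae_tendsto (fun m => integrable_finsetSum (J m) fun j _ => hi m j)
    (fun m c => Finset.sum_nonneg fun j _ => h0 m j c)
    (Summable.of_nonneg_of_le (fun m => integral_nonneg fun c =>
      Finset.sum_nonneg fun j _ => h0 m j c) (fun m => ?_) (summable_geometric_two.mul_left C))
  · filter_upwards [h1] with c hc τ hτ
    filter_upwards [hc.eventually (ge_mem_nhds (pow_pos hτ 2))] with m hm j hj hc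
    have a1 := (Finset.single_le_sum (fun j _ => h0 m j c) hj).trans hm
    rw [Set.indicator_of_mem] at a1
    · exact abs_le_of_sq_le_sq' a1 hτ.le |> abs_le.2
    · have := hL m
      rw [mem_closedBall_iff_norm, show c - (L m)⁻¹ • cst j = (L m)⁻¹ • (L m • c - cst j) by
        rw [smul_sub, inv_smul_smul₀ this.ne'], norm_smul, Real.norm_of_nonneg (by positivity),
        inv_mul_le_iff₀ this]
      refine hc.trans (le_of_eq ?_)
      field_simp
  · rw [integral_finsetSum _ fun j _ => hi m j]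
    refine le_trans (le_of_eq ?_) (h m)
    rw [Finset.sum_div]
    refine Finset.sum_congr rfl fun j _ => ?_
    have := hL m
    rw [integral_indicator_const _ measurableSet_closedBall, Measure.real, hv,
      ENNReal.toReal_ofReal (by positivity), smul_eq_mul]
    ring

/-- The grid points used at a level. -/
noncomputable def box (n R : ℕ) : Finset (Fin n → ℤ) :=
  Fintype.piFinset fun _ => Finset.Icc (-(R + 1 : ℤ)) (R + 1)

theorem ae_inner (n : ℕ) (q L : ℕ → ℕ) (hq : ∀ m, m ≤ q m) (hL : ∀ m, 1 ≤ L m) :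
    ∀ᵐ c : Fin n → ℝ, ∀ᶠ m in atTop, ∃ j ∈ box n (L m * q m),
      ‖(L m : ℝ) • c - cst j‖ ≤ 1 / 2 - (1 / 2) ^ q m / (4 * q m + 4) := by
  have h1 : ∀ᵐ t : ℝ, ∀ᶠ m in atTop, t ∉ ⋃ j ∈ Finset.Icc (-(L m * q m : ℤ)) (L m * q m),
      Metric.closedBall (((j : ℝ) + 1 / 2) / L m) ((1 / 2) ^ q m / (4 * q m + 4) / L m) := by
    refine ae_eventually_notMem (ne_top_of_le_ne_top (b := ∑' m, ENNReal.ofReal ((1 / 2) ^ m)) ?_
      (ENNReal.tsum_le_tsum fun m => (measure_biUnion_finset_le _ _).trans ?_))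
    · rw [← ENNReal.ofReal_tsum_of_nonneg (fun m => by positivity) summable_geometric_two]
      exact ENNReal.ofReal_ne_top
    · simp only [Real.volume_closedBall]
      rw [Finset.sum_const, Int.card_Icc, show ((L m : ℤ) * q m + 1 - -(L m * q m)).toNat =
        2 * (L m * q m) + 1 by
          rw [← Nat.cast_mul]
          omega, nsmul_eq_mul, ← ENNReal.ofReal_natCast, ← ENNReal.ofReal_mul (Nat.cast_nonneg _)]
      refine ENNReal.ofReal_le_ofReal (le_trans ?_ (pow_le_pow_of_le_one (by norm_num)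
        (by norm_num) (hq m)))
      have a1 : (1 : ℝ) ≤ L m := by exact_mod_cast hL m
      have a2 : (0 : ℝ) ≤ q m := Nat.cast_nonneg _
      have a3 : (0 : ℝ) < (1 / 2) ^ q m := by positivity
      push_cast
      rw [div_div, ← mul_div_assoc, ← mul_div_assoc, div_le_iff₀ (by positivity)]
      nlinarith [mul_nonneg a3.le (sub_nonneg.2 a1)]
  have h2 : ∀ᵐ c : Fin n → ℝ, ∀ r, ∀ᶠ m in atTop,
      c r ∉ ⋃ j ∈ Finset.Icc (-(L m * q m : ℤ)) (L m * q m),
      Metric.closedBall (((j : ℝ) + 1 / 2) / L m) ((1 / 2) ^ q m / (4 * q m + 4) / L m) :=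
    ae_all_iff.2 fun r => 
      (Measure.quasiMeasurePreserving_eval (fun _ : Fin n => (volume : Measure ℝ)) r).ae h1
  filter_upwards [h2] with c hc
  filter_upwards [eventually_all.2 hc,
    tendsto_natCast_atTop_atTop.eventually_ge_atTop ‖c‖] with m h3 h4
  have a1 : (0 : ℝ) < L m := by exact_mod_cast hL m
  have a2 : ∀ r, |(L m : ℝ) * c r| ≤ (L m * q m : ℤ) := fun r => by
    rw [abs_mul, abs_of_pos a1]
    push_cast
    exact mul_le_mul_of_nonneg_left (((norm_le_pi_norm c r).trans h4).trans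
      (Nat.cast_le.2 (hq m))) a1.le
  have a3 : (1 / 2 : ℝ) ^ q m / (4 * q m + 4) ≤ 1 / 2 := by
    rw [div_le_iff₀ (by positivity)]
    have := pow_le_one₀ (n := q m) (by norm_num : (0 : ℝ) ≤ 1 / 2) (by norm_num)
    have : (0 : ℝ) ≤ q m := Nat.cast_nonneg _
    linarith
  refine ⟨fun r => round ((L m : ℝ) * c r), Fintype.mem_piFinset.2 fun r => ?_,
    (pi_norm_le_iff_of_nonneg (by linarith)).2 fun r => ?_⟩
  · have b1 := abs_le.1 (abs_sub_round ((L m : ℝ) * c r))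
    have b2 := abs_le.1 (a2 r)
    rw [Finset.mem_Icc, ← Int.cast_le (R := ℝ), ← Int.cast_le (R := ℝ)]
    push_cast at b2 ⊢
    constructor <;> linarith [b1.1, b1.2, b2.1, b2.2]
  · change |(L m : ℝ) * c r - round ((L m : ℝ) * c r)| ≤ _
    by_contra h5
    rw [not_le, abs_sub_round_eq_min, lt_min_iff, Int.fract] at h5
    have b2 := abs_le.1 (a2 r)
    refine h3 r (Set.mem_iUnion₂.2 ⟨⌊(L m : ℝ) * c r⌋, Finset.mem_Icc.2 ⟨?_, ?_⟩, ?_⟩)
    · exact Int.le_floor.2 (by rw [Int.cast_neg]; exact b2.1)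
    · exact (Int.cast_le (R := ℝ)).1 ((Int.floor_le _).trans b2.2)
    · rw [Metric.mem_closedBall, Real.dist_eq, show c r - ((⌊(L m : ℝ) * c r⌋ : ℝ) + 1 / 2) / L m =
        (L m * c r - (⌊(L m : ℝ) * c r⌋ + 1 / 2)) / L m by field_simp, abs_div, abs_of_pos a1]
      exact div_le_div_of_nonneg_right (abs_le.2 ⟨by linarith [h5.1], by linarith [h5.2]⟩) a1.le

end Pool.Agent.Lib.MP_5ea425_an.All
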