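import Pool.Agent.Lib.MP_5ea425_an.All.DR
import Pool.Agent.Lib.MP_5ea425_an.All.Crit
import Pool.Agent.Lib.MP_5ea425_an.All.Level

/-!
The smooth shear that moves a set of good points off itself, in every infinite-dimensional space.
-/

set_option autoImplicit false

open MeasureTheory Filter Topology

namespace Pool.Agent.Lib.MP_5ea425_an.All

variable {X : Type*} [NormedAddCommGroup X] [NormedSpace ℝ X]

theorem exists_coord (hX : ¬ FiniteDimensional ℝ X) (n : ℕ) :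
    ∃ (π : X →L[ℝ] (Fin n → ℝ)) (σ : (Fin n → ℝ) →L[ℝ] X), ∀ c, π (σ c) = c := by
  rw [FiniteDimensional, ← Module.rank_lt_aleph0_iff, not_lt] at hX
  obtain ⟨f, hf⟩ := Module.le_rank_iff_exists_linearMap.1
    ((Cardinal.natCast_le_aleph0 (n := n)).trans hX)
  obtain ⟨g, hg⟩ := (LinearMap.toContinuousLinearMap
    (LinearEquiv.ofInjective f hf).symm.toLinearMap).exist_extension_of_finiteDimensional_range
  refine ⟨g, LinearMap.toContinuousLinearMap f, fun c => ?_⟩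
  exact (DFunLike.congr_fun hg (LinearEquiv.ofInjective f hf c)).symm.trans
    ((LinearEquiv.ofInjective f hf).symm_apply_apply c)

theorem exists_block' (hX : ¬ FiniteDimensional ℝ X) {n : ℕ} (π : X →L[ℝ] (Fin n → ℝ))
    (σ : (Fin n → ℝ) →L[ℝ] X) (h : ∀ c, π (σ c) = c) :
    ∃ K : ℝ, 0 < K ∧ ∀ (Z : Finset X) (J : Finset (Fin n → ℤ)),
      ∃ (e : (Fin n → ℤ) → X) (φ : (Fin n → ℤ) → X →L[ℝ] ℝ), (∀ j ∈ J, ‖e j‖ ≤ K) ∧
        (∀ j ∈ J, π (e j) = 0) ∧ (∀ j ∈ J, φ j (e j) = 1) ∧ (∀ j ∈ J, ∀ z ∈ Z, φ j z = 0) ∧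
        ∀ f, ∑ j ∈ J, φ j f ^ 2 ≤ ‖f‖ ^ 2 := by
  classical
  let P : X →L[ℝ] X := ContinuousLinearMap.id ℝ X - σ.comp π
  refine ⟨‖P‖ * 3 + 1, by positivity, fun Z J => ?_⟩
  obtain ⟨e, φ, h1, h2, h3, h4⟩ := exists_block hX
    (Z ∪ Finset.univ.image fun i : Fin n => σ fun j => if i = j then 1 else 0) J
  refine ⟨fun j => P (e j), φ, fun j hj => ?_, fun j _ => by simp [P, h], fun j hj => ?_,
    fun j hj z hz => h3 j hj z (Finset.mem_union_left _ hz), h4⟩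
  · have := P.le_opNorm_of_le (h1 j hj)
    linarith
  · have a1 := (LinearMap.pi_apply_eq_sum_univ ((φ j).comp σ).toLinearMap (π (e j))).trans
      (Finset.sum_eq_zero fun i _ => smul_eq_zero_of_right _ (h3 j hj _
        (Finset.mem_union_right _ (Finset.mem_image_of_mem _ (Finset.mem_univ i)))))
    change φ j (e j - σ (π (e j))) = 1
    rw [map_sub, h2 j hj, show φ j (σ (π (e j))) = 0 from a1, sub_zero]

theorem exists_levels (hX : ¬ FiniteDimensional ℝ X) (k : ℕ) (π : X →L[ℝ] (Fin (2 * k + 1) → ℝ))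
    (σ : (Fin (2 * k + 1) → ℝ) →L[ℝ] X) (h : ∀ c, π (σ c) = c) (M : ℕ → ℝ) (hM : ∀ q, 0 < M q)
    {δ : ℝ} (hδ : 0 < δ) :
    ∃ (K : ℝ) (q L : ℕ → ℕ) (a : ℕ → ℝ) (e : ℕ → (Fin (2 * k + 1) → ℤ) → X)
      (φ : ℕ → (Fin (2 * k + 1) → ℤ) → X →L[ℝ] ℝ), 0 < K ∧ (∀ m, m ≤ q m) ∧ (∀ m, 1 ≤ L m) ∧
      (∀ m, 0 < a m) ∧ (∀ m, a m * K * M (q m) * (L m : ℝ) ^ k ≤ δ / 2 * (1 / 2) ^ m) ∧
      (∀ m m', m < m' → a m' * K * M (q m') * (L m' : ℝ) ^ k ≤ a m / 4 * (1 / 2) ^ m') ∧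
      (∀ m, 1 / (a m ^ 2 * (L m : ℝ) ^ (2 * k + 1)) ≤ (1 / 2) ^ m) ∧
      (∀ m, ∀ j ∈ box _ (L m * q m), ‖e m j‖ ≤ K ∧ π (e m j) = 0 ∧ φ m j (e m j) = 1) ∧
      (∀ m f, ∑ j ∈ box _ (L m * q m), φ m j f ^ 2 ≤ ‖f‖ ^ 2) ∧
      ∀ m m', m < m' → ∀ j ∈ box _ (L m' * q m'), ∀ l ∈ box _ (L m * q m), φ m' j (e m l) = 0 := by
  classical
  obtain ⟨K, hK, hb⟩ := exists_block' hX π σ h
  obtain ⟨y, h1, h2⟩ := exists_seq_of_forall_finset_exists
    (fun y : ℕ × ℕ × ℝ × ((Fin (2 * k + 1) → ℤ) → X) × ((Fin (2 * k + 1) → ℤ) → X →L[ℝ] ℝ) =>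
      1 ≤ y.2.1 ∧ 0 < y.2.2.1 ∧ y.2.2.1 * K * M y.1 * (y.2.1 : ℝ) ^ k ≤ δ / 2 * (1 / 2) ^ y.1 ∧
      1 / (y.2.2.1 ^ 2 * (y.2.1 : ℝ) ^ (2 * k + 1)) ≤ (1 / 2) ^ y.1 ∧
      (∀ j ∈ box _ (y.2.1 * y.1), ‖y.2.2.2.1 j‖ ≤ K ∧ π (y.2.2.2.1 j) = 0 ∧
        y.2.2.2.2 j (y.2.2.2.1 j) = 1) ∧
      ∀ f, ∑ j ∈ box _ (y.2.1 * y.1), y.2.2.2.2 j f ^ 2 ≤ ‖f‖ ^ 2)
    (fun x y => x.1 < y.1 ∧ y.2.2.1 * K * M y.1 * (y.2.1 : ℝ) ^ k ≤ x.2.2.1 / 4 * (1 / 2) ^ y.1 ∧
      ∀ j ∈ box _ (y.2.1 * y.1), ∀ l ∈ box _ (x.2.1 * x.1), y.2.2.2.2 j (x.2.2.2.1 l) = 0)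
    fun s hs => by
      obtain ⟨q, hq⟩ : ∃ q : ℕ, ∀ x ∈ s, x.1 < q := ⟨s.sup (·.1) + 1, fun x hx =>
        Nat.lt_succ_of_le (Finset.le_sup (f := fun x => x.1) hx)⟩
      have ht : Tendsto (fun γ : ℝ => γ * K * M q) (𝓝[>] 0) (𝓝 0) := by
        have : Tendsto (fun γ : ℝ => γ * K * M q) (𝓝 0) (𝓝 (0 * K * M q)) :=
          Continuous.tendsto (by fun_prop) 0
        rw [zero_mul, zero_mul] at this
        exact this.mono_left nhdsWithin_le_nhds
      obtain ⟨γ, ⟨a1, a2⟩, a3⟩ := (((ht.eventually (ge_mem_nhds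
        (show 0 < δ / 2 * (1 / 2 : ℝ) ^ q by positivity))).and
        ((eventually_all_finset s).2 fun x hx => ht.eventually (ge_mem_nhds
          (show 0 < x.2.2.1 / 4 * (1 / 2 : ℝ) ^ q by
            have := (hs x hx).2.1
            positivity)))).and self_mem_nhdsWithin).exists
      have a4 : 0 < γ := a3
      obtain ⟨L, a5⟩ := exists_nat_gt (2 ^ q / γ ^ 2 : ℝ)
      have a6 : (0 : ℝ) < L := lt_trans (by positivity) a5
      have a7 : γ / (L : ℝ) ^ k * K * M q * (L : ℝ) ^ k = γ * K * M q := by field_simp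
      obtain ⟨e, φ, b1, b2, b3, b4, b5⟩ := hb
        (s.biUnion fun x => (box _ (x.2.1 * x.1)).image x.2.2.2.1) (box _ (L * q))
      refine ⟨(q, L, γ / (L : ℝ) ^ k, e, φ), ⟨Nat.cast_pos.1 a6, by positivity, a7.trans_le a1, ?_,
        fun j hj => ⟨b1 j hj, b2 j hj, b3 j hj⟩, b5⟩, fun x hx => ⟨hq x hx, a7.trans_le (a2 x hx),
        fun j hj l hl => b4 j hj _ (Finset.mem_biUnion.2 ⟨x, hx, Finset.mem_image_of_mem _ hl⟩)⟩⟩
      change 1 / ((γ / (L : ℝ) ^ k) ^ 2 * (L : ℝ) ^ (2 * k + 1)) ≤ (1 / 2) ^ q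
      rw [show (γ / (L : ℝ) ^ k) ^ 2 * (L : ℝ) ^ (2 * k + 1) = L * γ ^ 2 by
        field_simp
        ring, one_div_pow]
      exact one_div_le_one_div_of_le (by positivity) ((div_lt_iff₀ (by positivity)).1 a5).le
  have h3 : ∀ m, m ≤ (y m).1 :=
    (strictMono_nat_of_lt_succ (f := fun m => (y m).1) fun m => (h2 m _ m.lt_succ_self).1).id_le
  have h4 : ∀ m, (1 / 2 : ℝ) ^ (y m).1 ≤ (1 / 2) ^ m := fun m =>
    pow_le_pow_of_le_one (by norm_num) (by norm_num) (h3 m)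
  refine ⟨K, fun m => (y m).1, fun m => (y m).2.1, fun m => (y m).2.2.1, fun m => (y m).2.2.2.1,
    fun m => (y m).2.2.2.2, hK, h3, fun m => (h1 m).1, fun m => (h1 m).2.1,
    fun m => (h1 m).2.2.1.trans (mul_le_mul_of_nonneg_left (h4 m) (by positivity)),
    fun m m' hm => (h2 m m' hm).2.1.trans (mul_le_mul_of_nonneg_left (h4 m') ?_),
    fun m => (h1 m).2.2.2.1.trans (h4 m), fun m => (h1 m).2.2.2.2.1, fun m => (h1 m).2.2.2.2.2,
    fun m m' hm => (h2 m m' hm).2.2⟩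
  have := (h1 m).2.1
  positivity

theorem core [CompleteSpace X] [MeasurableSpace X] [BorelSpace X] (hX : ¬ FiniteDimensional ℝ X)
    (k : ℕ) (π : X →L[ℝ] (Fin (2 * k + 1) → ℝ)) (σ : (Fin (2 * k + 1) → ℝ) →L[ℝ] X)
    (h : ∀ c, π (σ c) = c) {δ : ℝ} (hδ : 0 < δ) :
    ∃ (u : (Fin (2 * k + 1) → ℝ) → X) (G : Set X), ContDiff ℝ k u ∧
      (∀ i ≤ k, ∀ c, ‖iteratedFDeriv ℝ i u c‖ ≤ δ) ∧ (∀ c, π (u c) = 0) ∧ MeasurableSet G ∧
      (∀ (y : X) (z : Fin (2 * k + 1) → X), ∀ᵐ c : Fin (2 * k + 1) → ℝ, ∀ t : Fin (2 * k + 1) → ℝ,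
        π (y + ∑ r, t r • z r) = c → y + ∑ r, t r • z r ∈ G) ∧ ∀ x ∈ G, x + u (π x) ∉ G := by
  obtain ⟨β, hβ1, hβ2⟩ : ∃ β : ℕ → ContDiffBump (0 : Fin (2 * k + 1) → ℝ),
      (∀ q, (β q).rIn = 1 / 2 - (1 / 2) ^ q / (4 * q + 4)) ∧ ∀ q, (β q).rOut < 1 / 2 := by
    have a1 : ∀ q : ℕ, 0 < (1 / 2 : ℝ) ^ q / (4 * q + 4) := fun q => by positivity
    have a2 : ∀ q : ℕ, (1 / 2 : ℝ) ^ q / (4 * q + 4) < 1 / 2 := fun q => by
      rw [div_lt_iff₀ (by positivity)]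
      have := pow_le_one₀ (n := q) (by norm_num : (0 : ℝ) ≤ 1 / 2) (by norm_num)
      have : (0 : ℝ) ≤ q := Nat.cast_nonneg _
      linarith
    exact ⟨fun q => ⟨1 / 2 - (1 / 2) ^ q / (4 * q + 4), 1 / 2 - (1 / 2) ^ q / (4 * q + 4) / 2,
      by linarith [a2 q], by linarith [a1 q]⟩, fun q => rfl, fun q => by
        change 1 / 2 - (1 / 2 : ℝ) ^ q / (4 * q + 4) / 2 < 1 / 2
        linarith [a1 q]⟩
  choose M hM0 hM using fun q => bump_bound (β q) k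
  obtain ⟨K, q, L, a, e, φ, hK, hq, hL, ha, h1, h2, h3, h4, h5, h6⟩ :=
    exists_levels hX k π σ h M hM0 hδ
  obtain ⟨U, hU⟩ : ∃ U : ℕ → (Fin (2 * k + 1) → ℝ) → X, ∀ m, U m = fun c =>
    ∑ j ∈ box _ (L m * q m), β (q m) ((L m : ℝ) • c - cst j) • a m • e m j := ⟨_, fun _ => rfl⟩
  have hl := fun m => level_bound (β (q m)) (hβ2 _) (hM0 _) (hM _) (L := L m) (b := a m * K)
    (by exact_mod_cast hL m) (mul_pos (ha m) hK).le (box _ (L m * q m)) (fun j => a m • e m j)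
    fun j hj => by
      rw [norm_smul, Real.norm_of_nonneg (ha m).le]
      exact mul_le_mul_of_nonneg_left (h4 m j hj).1 (ha m).le
  simp only [← hU] at hl
  have hs : Summable fun m : ℕ => δ / 2 * (1 / 2 : ℝ) ^ m := summable_geometric_two.mul_left _
  have hd : ∀ (i m : ℕ) c, (i : ℕ∞) ≤ k → ‖iteratedFDeriv ℝ i (U m) c‖ ≤ δ / 2 * (1 / 2) ^ m :=
    fun i m c hi => ((hl m).2 i (by exact_mod_cast hi) c).trans (h1 m)
  have h0 : ∀ m c, ‖U m c‖ ≤ a m * K * M (q m) * (L m : ℝ) ^ k := fun m c =>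
    norm_iteratedFDeriv_zero.symm.trans_le ((hl m).2 0 k.zero_le c)
  have hsU : ∀ c, Summable fun m => U m c := fun c =>
    Summable.of_norm_bounded hs fun m => (h0 m c).trans (h1 m)
  have hφ : ∀ m, ∀ j ∈ box _ (L m * q m), ∀ f, |φ m j f| ≤ ‖f‖ := fun m j hj f =>
    abs_le.2 (abs_le_of_sq_le_sq' ((Finset.single_le_sum (f := fun j => φ m j f ^ 2)
      (fun _ _ => sq_nonneg _) hj).trans (h5 m f)) (norm_nonneg _))
  refine ⟨fun c => ∑' m, U m c, ⋃ N, ⋂ m, ⋂ (_ : N ≤ m), ⋃ j ∈ box _ (L m * q m),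
    {x | ‖(L m : ℝ) • π x - cst j‖ ≤ (β (q m)).rIn} ∩ {x | |φ m j x| < a m / 4},
    contDiff_tsum (N := k) (fun m => (hl m).1) (fun _ _ => hs) hd, fun i hi c => ?_, fun c => ?_,
    ?_, fun y z => ?_, fun x hx hx' => ?_⟩
  · rw [iteratedFDeriv_tsum_apply (N := k) (fun m => (hl m).1) (fun _ _ => hs) hd
      (by exact_mod_cast hi)]
    refine (tsum_of_norm_bounded (hasSum_geometric_two.mul_left (δ / 2))
      fun m => hd i m c (by exact_mod_cast hi)).trans (le_of_eq (by ring))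
  · rw [π.map_tsum (hsU c)]
    refine (tsum_congr fun m => ?_).trans tsum_zero
    rw [hU, map_sum]
    exact Finset.sum_eq_zero fun j hj => by
      rw [map_smul, map_smul, (h4 m j hj).2.1, smul_zero, smul_zero]
  · exact MeasurableSet.iUnion fun N => MeasurableSet.iInter fun m => MeasurableSet.iInter fun _ =>
      Finset.measurableSet_biUnion _ fun j _ =>
        (isClosed_le (by fun_prop) continuous_const).measurableSet.inter
          (isOpen_lt (by fun_prop) continuous_const).measurableSet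
  · have a1 := fun w : X => ae_small (fun m => box _ (L m * q m)) (fun m => (L m : ℝ))
      (fun m => by exact_mod_cast hL m) (fun m j => φ m j w / a m) (C := ‖w‖ ^ 2) fun m => by
        have := ha m
        have : (0 : ℝ) < L m := by exact_mod_cast hL m
        simp only [div_pow]
        rw [← Finset.sum_div, div_div, div_eq_mul_one_div]
        refine mul_le_mul (h5 m w) ((h3 m).trans_eq (div_pow _ _ _)) (by positivity)
          (sq_nonneg _)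
    filter_upwards [ae_inner (2 * k + 1) q L hq hL, a1 y, ae_all_iff.2 fun r => a1 (z r)]
      with c b1 b2 b3 t ht
    have b4 : 0 < 1 + ∑ r, |t r| := by positivity
    have b5 : 0 < 1 / (8 * (1 + ∑ r, |t r|)) := by positivity
    obtain ⟨N, hN⟩ := eventually_atTop.1 (b1.and ((b2 _ b5).and
      (eventually_all.2 fun r => b3 r _ b5)))
    refine Set.mem_iUnion.2 ⟨N, Set.mem_iInter₂.2 fun m hm => ?_⟩
    obtain ⟨⟨j, c1, c2⟩, c3, c4⟩ := hN m hm
    rw [← hβ1] at c2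
    have c5 := (c2.trans_lt ((β (q m)).rIn_lt_rOut.trans (hβ2 _))).le
    have c6 : ∀ w, |φ m j w / a m| ≤ 1 / (8 * (1 + ∑ r, |t r|)) →
        |φ m j w| ≤ 1 / (8 * (1 + ∑ r, |t r|)) * a m := fun w hw => by
      rwa [abs_div, abs_of_pos (ha m), div_le_iff₀ (ha m)] at hw
    refine Set.mem_iUnion₂.2 ⟨j, c1, ?_, ?_⟩
    · change ‖(L m : ℝ) • π (y + ∑ r, t r • z r) - cst j‖ ≤ _
      rwa [ht]
    · change |φ m j (y + ∑ r, t r • z r)| < _
      rw [map_add, map_sum]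
      refine ((abs_add_le _ _).trans (add_le_add (c6 _ (c3 j c1 c5))
        ((Finset.abs_sum_le_sum_abs _ _).trans (Finset.sum_le_sum (g := fun r => |t r| *
          (1 / (8 * (1 + ∑ r, |t r|)) * a m)) fun r _ => ?_)))).trans_lt ?_
      · rw [map_smul, smul_eq_mul, abs_mul]
        exact mul_le_mul_of_nonneg_left (c6 _ (c4 r j c1 c5)) (abs_nonneg _)
      · rw [← Finset.sum_mul, ← one_add_mul, show (1 + ∑ r, |t r|) *
          (1 / (8 * (1 + ∑ r, |t r|)) * a m) = a m / 8 by field_simp]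
        linarith [ha m]
  · obtain ⟨N, hN⟩ := Set.mem_iUnion.1 hx
    obtain ⟨N', hN'⟩ := Set.mem_iUnion.1 hx'
    obtain ⟨j, b1, b2, b3⟩ := Set.mem_iUnion₂.1 (Set.mem_iInter₂.1 hN (max N N') (le_max_left _ _))
    obtain ⟨l, b4, b5, b6⟩ := Set.mem_iUnion₂.1
      (Set.mem_iInter₂.1 hN' (max N N') (le_max_right _ _))
    generalize max N N' = m at *
    have p1 : π (x + ∑' m, U m (π x)) = π x := by
      rw [map_add, π.map_tsum (hsU _), add_eq_left]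
      refine (tsum_congr fun m => ?_).trans tsum_zero
      rw [hU, map_sum]
      exact Finset.sum_eq_zero fun j hj => by
        rw [map_smul, map_smul, (h4 m j hj).2.1, smul_zero, smul_zero]
    have b7 := (β (q m)).rIn_lt_rOut.trans (hβ2 (q m))
    change ‖(L m : ℝ) • π x - cst j‖ ≤ _ at b2
    change ‖(L m : ℝ) • π (x + ∑' m, U m (π x)) - cst l‖ ≤ _ at b5
    rw [p1] at b5
    obtain rfl := int_sep (b2.trans_lt b7) (b5.trans_lt b7)
    change |φ m j x| < _ at b3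
    change |φ m j (x + ∑' m, U m (π x))| < _ at b6
    have p2 := ((hsU (π x)).hasSum.mapL (φ m j)).sub (hasSum_ite_eq m (a m))
    have p3 := p2.norm_le_of_bounded (hasSum_geometric_two.mul_left (a m / 4)) fun m' => by
      have := ha m
      rcases lt_trichotomy m' m with hm | rfl | hm
      · rw [if_neg hm.ne, hU, map_sum, Finset.sum_eq_zero fun l hl => by
          rw [map_smul, map_smul, h6 m' m hm j b1 l hl, smul_zero, smul_zero], sub_zero, norm_zero]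
        positivity
      · rw [if_pos rfl, hU]
        dsimp only
        rw [level_eval _ (hβ2 _) _ b1 b2, map_smul, (h4 m' j b1).2.2,
          smul_eq_mul, mul_one, sub_self, norm_zero]
        positivity
      · rw [if_neg hm.ne', sub_zero]
        exact (hφ m j b1 _).trans ((h0 m' _).trans (h2 m m' hm))
    rw [map_add] at b6
    have p4 := abs_le.1 p3
    have p5 := abs_lt.1 b3
    have p6 := abs_lt.1 b6
    linarith [p4.1, p5.1, p6.2]

theorem main [CompleteSpace X] [MeasurableSpace X] [BorelSpace X] (hX : ¬ FiniteDimensional ℝ X)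
    (k : ℕ) {ε : ℝ} (hε : 0 < ε) :
    ∃ (π : X →L[ℝ] (Fin (2 * k + 1) → ℝ)) (u : (Fin (2 * k + 1) → ℝ) → X) (hu : ∀ c, π (u c) = 0)
      (A : Set X), ContDiff ℝ k (u ∘ π) ∧ (∀ i ≤ k, ∀ x, ‖iteratedFDeriv ℝ i (u ∘ π) x‖ ≤ ε) ∧
      AronszajnNull A ∧ AronszajnNull ((fun x => x - u (π x)) ⁻¹' A)ᶜ := by
  obtain ⟨π, σ, h⟩ := exists_coord hX (2 * k + 1)
  have hπ : Function.Surjective π := fun c => ⟨σ c, h c⟩
  obtain ⟨u, G, h1, h2, h3, h4, h5, h6⟩ := core hX k π σ h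
    (show 0 < ε / (‖π‖ + 1) ^ k by positivity)
  refine ⟨π, u, h3, Gᶜ, h1.comp π.contDiff, fun i hi x => ?_,
    null_of_planes π hπ h4.compl fun y z => ?_, ?_⟩
  · rw [π.iteratedFDeriv_comp_right h1 x (by exact_mod_cast hi)]
    refine (ContinuousMultilinearMap.norm_compContinuousLinearMap_le _ _).trans ?_
    rw [Finset.prod_const, Finset.card_univ, Fintype.card_fin]
    refine (mul_le_mul (h2 i hi _) ((pow_le_pow_left₀ (norm_nonneg π) (le_add_of_nonneg_right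
      zero_le_one) i).trans (pow_le_pow_right₀ (le_add_of_nonneg_left (norm_nonneg π)) hi))
      (by positivity) (by positivity)).trans_eq (div_mul_cancel₀ _ (by positivity))
  · filter_upwards [h5 y z] with c hc t ht
    exact not_not.2 (hc t ht)
  · rw [Set.preimage_compl, compl_compl]
    refine null_of_planes π hπ
      ((continuous_id.sub (h1.continuous.comp π.continuous)).measurable h4) fun y z => ?_
    filter_upwards [h5 y z] with c hc t ht h7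
    refine h6 _ h7 ?_
    rw [map_sub, h3, sub_zero, sub_add_cancel]
    exact hc t ht

end Pool.Agent.Lib.MP_5ea425_an.All
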